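import Mathlib

/-!
# The level sets of tribes are at unbounded earth mover's distance

The number of ones is `1`-Lipschitz for the Hamming distance, and its mean over `T⁻¹(1)` exceeds
its mean over `T⁻¹(0)` by at least `w / 2`.
-/

open Finset

namespace Pool.Agent.Results.MP_b6f08f_co.TribesUnbounded

/-- The cube `{0,1}^n` with `n = s * w`; the coordinate `(i, j)` is the `j`-th coordinate of the
`i`-th block. -/
abbrev Cube (s w : ℕ) : Type := Fin s × Fin w → Bool

/-- The tribes function equals one: some block is all ones. -/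
def tribes (s w : ℕ) (x : Cube s w) : Prop := ∃ i : Fin s, ∀ j : Fin w, x (i, j) = true

/-- The set `A` of points where tribes equals one. -/
noncomputable def A (s w : ℕ) : Finset (Cube s w) := by
  classical exact Finset.univ.filter (tribes s w)

/-- The set `Z` of points where tribes equals zero. -/
noncomputable def Z (s w : ℕ) : Finset (Cube s w) := by
  classical exact Finset.univ.filter (fun x => ¬ tribes s w x)

/-- The uniform probability measure on `S`, as a mass function. -/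
noncomputable def unif {X : Type} (S : Finset X) (x : X) : ℝ := by
  classical exact if x ∈ S then 1 / (S.card : ℝ) else 0

/-- `q` is a coupling of the mass functions `μ` and `ν`. -/
def IsCoupling {X : Type} [Fintype X] (μ ν : X → ℝ) (q : X → X → ℝ) : Prop :=
  (∀ x y, 0 ≤ q x y) ∧ (∀ x, ∑ y, q x y = μ x) ∧ ∀ y, ∑ x, q x y = ν y

/-- The earth mover's distance for the Hamming distance: the infimum (minimum) of the costs of
all couplings. -/
noncomputable def W₁ {s w : ℕ} (μ ν : Cube s w → ℝ) : ℝ :=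
  sInf {c | ∃ q, IsCoupling μ ν q ∧ c = ∑ x, ∑ y, (hammingDist x y : ℝ) * q x y}

/-- `s = s_w` is the largest integer with `1 - (1 - 2^{-w})^s ≤ 1/2`. -/
def IsLargest (w s : ℕ) : Prop :=
  1 - (1 - (1 / 2 : ℝ) ^ w) ^ s ≤ 1 / 2 ∧
    ∀ s' : ℕ, 1 - (1 - (1 / 2 : ℝ) ^ w) ^ s' ≤ 1 / 2 → s' ≤ s

/-! ## Existence and size of `s_w` -/

theorem exists_isLargest (w : ℕ) (hw : 1 ≤ w) :
    ∃ s, IsLargest w s ∧ (2 : ℝ) ^ w / 2 ≤ s := by
  have hp0 : (0 : ℝ) < (1 / 2) ^ w := by positivity
  have hp1 : (1 / 2 : ℝ) ^ w ≤ 1 / 2 := by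
    calc (1 / 2 : ℝ) ^ w ≤ (1 / 2) ^ 1 := pow_le_pow_of_le_one (by norm_num) (by norm_num) hw
      _ = 1 / 2 := by norm_num
  set p : ℝ := (1 / 2) ^ w with hp
  have hlim : Filter.Tendsto (fun n : ℕ => (1 - p) ^ n) Filter.atTop (nhds 0) :=
    tendsto_pow_atTop_nhds_zero_of_lt_one (by linarith) (by linarith)
  obtain ⟨n, hn⟩ : ∃ n : ℕ, (1 - p) ^ n < 1 / 2 :=
    ((tendsto_order.1 hlim).2 (1 / 2) (by norm_num)).exists
  classical
  set m := Nat.find (⟨n, hn⟩ : ∃ n : ℕ, (1 - p) ^ n < 1 / 2) with hm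
  have hm1 : (1 - p) ^ m < 1 / 2 := Nat.find_spec (⟨n, hn⟩ : ∃ n : ℕ, (1 - p) ^ n < 1 / 2)
  have hm0 : 0 < m := by
    rcases Nat.eq_zero_or_pos m with h | h
    · rw [h, pow_zero] at hm1; norm_num at hm1
    · exact h
  obtain ⟨s, hs⟩ : ∃ s, m = s + 1 := ⟨m - 1, by omega⟩
  have hs1 : ¬ (1 - p) ^ s < 1 / 2 :=
    Nat.find_min (⟨n, hn⟩ : ∃ n : ℕ, (1 - p) ^ n < 1 / 2) (by omega)
  refine ⟨s, ⟨by linarith [not_lt.1 hs1], fun s' hs' => ?_⟩, ?_⟩
  · by_contra hlt
    have h1 : m ≤ s' := by omega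
    have h2 : (1 - p) ^ s' ≤ (1 - p) ^ m :=
      pow_le_pow_of_le_one (by linarith) (by linarith) h1
    linarith
  · have h1 : 1 + (m : ℝ) * (-p) ≤ (1 + (-p)) ^ m :=
      one_add_mul_le_pow (by linarith) m
    have h2 : 1 / 2 < (m : ℝ) * p := by
      have : (1 + (-p)) ^ m = (1 - p) ^ m := by ring_nf
      rw [this] at h1
      linarith
    have h3 : (2 : ℝ) ^ w * p = 1 := by
      rw [hp, ← mul_pow]; norm_num
    have h4 : (2 : ℝ) ^ w / 2 < m := by
      have : (2 : ℝ) ^ w * (1 / 2) < 2 ^ w * ((m : ℝ) * p) :=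
        mul_lt_mul_of_pos_left h2 (by positivity)
      nlinarith
    -- integrality
    have h5 : (2 : ℝ) ^ w / 2 = ((2 ^ (w - 1) : ℕ) : ℝ) := by
      obtain ⟨v, rfl⟩ : ∃ v, w = v + 1 := ⟨w - 1, by omega⟩
      push_cast
      rw [pow_succ]
      simp
    rw [h5] at h4 ⊢
    have h6 : 2 ^ (w - 1) < m := by exact_mod_cast h4
    have h7 : 2 ^ (w - 1) ≤ s := by omega
    exact_mod_cast h7

/-! ## The number of ones -/

/-- the number of ones, minus half the number of coordinates -/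
noncomputable def ones {ι : Type} [Fintype ι] (x : ι → Bool) : ℝ :=
  ∑ p, ((if x p = true then 1 else 0) - 1 / 2)

theorem ones_lipschitz {ι : Type} [Fintype ι] [DecidableEq ι] (x y : ι → Bool) :
    ones y - ones x ≤ (hammingDist x y : ℝ) := by
  rw [ones, ones, ← Finset.sum_sub_distrib, hammingDist, Finset.card_filter, Nat.cast_sum]
  refine Finset.sum_le_sum fun p _ => ?_
  rcases x p with _ | _ <;> rcases y p with _ | _ <;> norm_num

theorem ones_not {ι : Type} [Fintype ι] (x : ι → Bool) : ones (fun p => !x p) = - ones x := by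
  rw [ones, ones, ← Finset.sum_neg_distrib]
  refine Finset.sum_congr rfl fun p _ => ?_
  rcases x p with _ | _ <;> norm_num

theorem sum_ones {ι : Type} [Fintype ι] [DecidableEq ι] : ∑ x : ι → Bool, ones x = 0 := by
  have h : ∑ x : ι → Bool, ones x = ∑ x : ι → Bool, ones (fun p => !x p) := by
    have hinv : Function.Involutive (fun (x : ι → Bool) (p : ι) => !x p) := fun x => by
      funext p; simp
    exact (Equiv.sum_comp hinv.toPerm (fun x => ones x)).symm
  simp only [ones_not, Finset.sum_neg_distrib] at h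
  linarith

/-- the strings of length `w` which are not all ones -/
noncomputable def T (w : ℕ) : Finset (Fin w → Bool) := Finset.univ.erase (fun _ => true)

theorem card_T (w : ℕ) : (T w).card = 2 ^ w - 1 := by
  rw [T, Finset.card_erase_of_mem (Finset.mem_univ _), Finset.card_univ]
  simp

theorem sum_T (w : ℕ) : ∑ b ∈ T w, ones b = - (w / 2) := by
  have h := Finset.add_sum_erase Finset.univ (fun b : Fin w → Bool => ones b)
    (Finset.mem_univ (fun _ => true))
  rw [sum_ones] at h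
  have h1 : ones (fun _ : Fin w => true) = w / 2 := by
    simp [ones]; ring
  rw [h1] at h
  rw [T]; linarith

/-- splitting a point of the cube into its blocks -/
def blocks (s w : ℕ) : Cube s w ≃ (Fin s → Fin w → Bool) := Equiv.curry _ _ _

theorem mem_Z {s w : ℕ} (x : Cube s w) :
    x ∈ Z s w ↔ blocks s w x ∈ Fintype.piFinset (fun _ : Fin s => T w) := by
  classical
  simp only [Z, Finset.mem_filter, Finset.mem_univ, true_and, tribes, Fintype.mem_piFinset, T,
    Finset.mem_erase, and_true, not_exists]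
  refine forall_congr' fun i => ?_
  constructor
  · intro h1 h2
    exact h1 fun j => congrFun h2 j
  · intro h1 h2
    exact h1 (funext fun j => h2 j)

theorem ones_blocks {s w : ℕ} (x : Cube s w) : ones x = ∑ i, ones (blocks s w x i) := by
  simp only [ones, blocks]
  rw [Fintype.sum_prod_type]
  rfl

theorem card_Z (s w : ℕ) : (Z s w).card = (2 ^ w - 1) ^ s := by
  have h : (Z s w).card = (Fintype.piFinset (fun _ : Fin s => T w)).card :=
    Finset.card_equiv (blocks s w) fun x => mem_Z x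
  rw [h, Fintype.card_piFinset, Finset.prod_const, card_T, Finset.card_univ, Fintype.card_fin]

theorem sum_Z (s w : ℕ) :
    ∑ x ∈ Z s w, ones x = - ((s : ℝ) * (((2 ^ w - 1 : ℕ) : ℝ) ^ (s - 1) * (w / 2))) := by
  have h : ∑ x ∈ Z s w, ones x =
      ∑ g ∈ Fintype.piFinset (fun _ : Fin s => T w), ∑ i, ones (g i) :=
    Finset.sum_equiv (blocks s w) (fun x => mem_Z x) fun x _ => ones_blocks x
  rw [h, Finset.sum_comm]
  have h2 : ∀ i : Fin s, ∑ g ∈ Fintype.piFinset (fun _ : Fin s => T w), ones (g i) =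
      ((2 ^ w - 1 : ℕ) : ℝ) ^ (s - 1) * (-(w / 2)) := by
    intro i
    rw [Fintype.sum_piFinset_apply (fun b => ones b) (T w) i, sum_T, card_T, Fintype.card_fin,
      nsmul_eq_mul]
    push_cast
    ring
  rw [Finset.sum_congr rfl fun i _ => h2 i, Finset.sum_const, Finset.card_univ,
    Fintype.card_fin, nsmul_eq_mul]
  ring

theorem A_eq (s w : ℕ) : A s w = Finset.univ \ Z s w := by
  classical
  ext x
  simp [A, Z]

theorem sum_A (s w : ℕ) :
    ∑ x ∈ A s w, ones x = (s : ℝ) * (((2 ^ w - 1 : ℕ) : ℝ) ^ (s - 1) * (w / 2)) := by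
  have h : ∑ x ∈ A s w, ones x + ∑ x ∈ Z s w, ones x = 0 := by
    rw [A_eq, Finset.sum_sdiff (Finset.subset_univ _), sum_ones]
  rw [sum_Z] at h
  linarith

theorem card_A (s w : ℕ) : ((A s w).card : ℝ) = (2 : ℝ) ^ (s * w) - (Z s w).card := by
  rw [A_eq, Finset.card_sdiff_of_subset (Finset.subset_univ _), Finset.card_univ, Nat.cast_sub]
  · simp [Fintype.card_prod]
  · exact Finset.card_le_univ _

theorem sum_unif {X : Type} [Fintype X] (S : Finset X) (f : X → ℝ) :
    ∑ x, unif S x * f x = 1 / (S.card : ℝ) * ∑ x ∈ S, f x := by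
  classical
  simp only [unif, ite_mul, zero_mul]
  rw [← Finset.sum_filter, Finset.mul_sum]
  refine Finset.sum_congr ?_ fun x _ => rfl
  ext x; simp

theorem unif_nonneg {X : Type} (S : Finset X) (x : X) : 0 ≤ unif S x := by
  classical
  unfold unif
  split_ifs <;> positivity

theorem sum_unif_one {X : Type} [Fintype X] (S : Finset X) (hS : S.Nonempty) :
    ∑ x, unif S x = 1 := by
  have h := sum_unif S (fun _ => (1 : ℝ))
  simp only [mul_one, Finset.sum_const, nsmul_eq_mul] at h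
  rw [h, one_div, inv_mul_cancel₀]
  exact_mod_cast hS.card_pos.ne'

/-- duality: the cost of a coupling is at least the difference of the means of `ones` -/
theorem cost_ge {s w : ℕ} (μ ν : Cube s w → ℝ) (q : Cube s w → Cube s w → ℝ)
    (hq : IsCoupling μ ν q) :
    ∑ y, ν y * ones y - ∑ x, μ x * ones x ≤ ∑ x, ∑ y, (hammingDist x y : ℝ) * q x y := by
  have h1 : ∑ x, μ x * ones x = ∑ x, ∑ y, q x y * ones x := by
    refine Finset.sum_congr rfl fun x _ => ?_
    rw [← hq.2.1 x, Finset.sum_mul]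
  have h2 : ∑ y, ν y * ones y = ∑ x, ∑ y, q x y * ones y := by
    rw [Finset.sum_comm]
    refine Finset.sum_congr rfl fun y _ => ?_
    rw [← hq.2.2 y, Finset.sum_mul]
  rw [h1, h2, ← Finset.sum_sub_distrib]
  refine Finset.sum_le_sum fun x _ => ?_
  rw [← Finset.sum_sub_distrib]
  refine Finset.sum_le_sum fun y _ => ?_
  have := mul_le_mul_of_nonneg_left (ones_lipschitz x y) (hq.1 x y)
  linarith

theorem lower (w s : ℕ) (hw : 1 ≤ w) (hs : IsLargest w s) (hs2 : (2 : ℝ) ^ w / 2 ≤ s) :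
    (w : ℝ) / 2 ≤ ∑ y, unif (A s w) y * ones y - ∑ x, unif (Z s w) x * ones x := by
  have hs0 : 0 < s := by
    rcases Nat.eq_zero_or_pos s with h | h
    · rw [h] at hs2
      have : (0 : ℝ) < 2 ^ w := by positivity
      simp at hs2; linarith
    · exact h
  have hN1 : (2 : ℝ) ≤ 2 ^ w := by
    calc (2 : ℝ) = 2 ^ 1 := by norm_num
      _ ≤ 2 ^ w := pow_le_pow_right₀ (by norm_num) hw
  set t : ℝ := ((2 ^ w - 1 : ℕ) : ℝ) with ht
  have ht' : t = 2 ^ w - 1 := by
    rw [ht, Nat.cast_sub Nat.one_le_two_pow]; push_cast; ring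
  have ht0 : 0 < t := by rw [ht']; linarith
  have hZ : ((Z s w).card : ℝ) = t ^ s := by rw [card_Z]; push_cast; rfl
  have hA : ((A s w).card : ℝ) = (2 : ℝ) ^ (s * w) - t ^ s := by rw [card_A, hZ]
  have hle : (2 : ℝ) ^ (s * w) ≤ 2 * t ^ s := by
    have h1 : 1 / 2 ≤ (1 - (1 / 2 : ℝ) ^ w) ^ s := by linarith [hs.1]
    have h2 : (1 - (1 / 2 : ℝ) ^ w) ^ s * 2 ^ (s * w) = t ^ s := by
      rw [mul_comm s w, pow_mul, ← mul_pow, ht']
      congr 1
      rw [sub_mul, ← mul_pow]; norm_num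
    have h3 : 1 / 2 * (2 : ℝ) ^ (s * w) ≤ (1 - (1 / 2 : ℝ) ^ w) ^ s * 2 ^ (s * w) :=
      mul_le_mul_of_nonneg_right h1 (by positivity)
    rw [h2] at h3; linarith
  have hlt : t ^ s < (2 : ℝ) ^ (s * w) := by
    rw [mul_comm s w, pow_mul]
    exact pow_lt_pow_left₀ (by rw [ht']; linarith) ht0.le hs0.ne'
  rw [sum_unif, sum_unif, sum_A, sum_Z, hZ, hA]
  have hts : t ^ s = t * t ^ (s - 1) := by
    rw [← pow_succ', Nat.sub_add_cancel hs0]
  have hpos : 0 < t ^ (s - 1) := by positivity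
  set a : ℝ := (2 : ℝ) ^ (s * w) - t ^ s with ha
  have ha0 : 0 < a := by rw [ha]; linarith
  have hale : a ≤ t ^ s := by rw [ha]; linarith
  have hc : 0 ≤ (s : ℝ) * (t ^ (s - 1) * (w / 2)) := by positivity
  have h1 : 1 / t ^ s * ((s : ℝ) * (t ^ (s - 1) * (w / 2))) ≤
      1 / a * ((s : ℝ) * (t ^ (s - 1) * (w / 2))) :=
    mul_le_mul_of_nonneg_right (one_div_le_one_div_of_le ha0 hale) hc
  have h2 : 1 / t ^ s * ((s : ℝ) * (t ^ (s - 1) * (w / 2))) = s * w / (2 * t) := by
    rw [hts]; field_simp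
  have h3 : (w : ℝ) / 4 ≤ s * w / (2 * t) := by
    rw [le_div_iff₀ (by positivity)]
    have hw0 : (0 : ℝ) ≤ w := by positivity
    have : t / 2 ≤ s := by rw [ht']; linarith
    nlinarith
  rw [h2] at h1
  rw [mul_neg, sub_neg_eq_add, h2]
  linarith

/-- Negative answer to Q1 of MP_b6f08f_co: for every `w ≥ 1` the earth mover's distance between
the uniform measures on the two level sets of tribes is at least `w / 2`; in particular it is
not bounded. -/
theorem result :
    (∀ w : ℕ, 1 ≤ w → ∃ s : ℕ, IsLargest w s ∧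
      (w : ℝ) / 2 ≤ W₁ (unif (Z s w)) (unif (A s w))) ∧
    ∀ C : ℝ, ∃ w : ℕ, 1 ≤ w ∧ ∃ s : ℕ, IsLargest w s ∧ C < W₁ (unif (Z s w)) (unif (A s w)) := by
  have main : ∀ w : ℕ, 1 ≤ w → ∃ s : ℕ, IsLargest w s ∧
      (w : ℝ) / 2 ≤ W₁ (unif (Z s w)) (unif (A s w)) := by
    intro w hw
    obtain ⟨s, hs, hs2⟩ := exists_isLargest w hw
    refine ⟨s, hs, ?_⟩
    have hs0 : 0 < s := by
      rcases Nat.eq_zero_or_pos s with h | h
      · rw [h] at hs2
        have : (0 : ℝ) < 2 ^ w := by positivity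
        simp at hs2; linarith
      · exact h
    have hZne : (Z s w).Nonempty := by
      refine ⟨fun _ => false, ?_⟩
      classical
      simp only [Z, Finset.mem_filter, Finset.mem_univ, true_and, tribes, not_exists]
      intro i h
      exact absurd (h ⟨0, hw⟩) (by simp)
    have hAne : (A s w).Nonempty := by
      refine ⟨fun _ => true, ?_⟩
      classical
      simp only [A, Finset.mem_filter, Finset.mem_univ, true_and, tribes]
      exact ⟨⟨0, hs0⟩, fun _ => trivial⟩
    refine le_csInf ?_ ?_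
    · refine ⟨_, fun x y => unif (Z s w) x * unif (A s w) y, ⟨?_, ?_, ?_⟩, rfl⟩
      · intro x y
        exact mul_nonneg (unif_nonneg _ _) (unif_nonneg _ _)
      · intro x
        rw [← Finset.mul_sum, sum_unif_one _ hAne, mul_one]
      · intro y
        rw [← Finset.sum_mul, sum_unif_one _ hZne, one_mul]
    · rintro c ⟨q, hq, rfl⟩
      exact (lower w s hw hs hs2).trans (cost_ge _ _ q hq)
  refine ⟨main, fun C => ?_⟩
  obtain ⟨n, hn⟩ := exists_nat_gt (2 * C)
  obtain ⟨s, hs, h⟩ := main (n + 1) (by omega)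
  refine ⟨n + 1, by omega, s, hs, lt_of_lt_of_le ?_ h⟩
  push_cast
  linarith

end Pool.Agent.Results.MP_b6f08f_co.TribesUnbounded
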